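import Mathlib

open MvPolynomial

namespace Pool.Agent.Results.MP_5a868e_co.NotRegular

/-- nonzero polynomials with coefficients in `ℕ`, zero constant term, degree at most `d` in each
variable -/
def P (d : ℕ) : Set (MvPolynomial ℕ ℕ) :=
  {p | p ≠ 0 ∧ constantCoeff p = 0 ∧ ∀ i, degreeOf i p ≤ d}

theorem mem_add {p q : MvPolynomial ℕ ℕ} {m : ℕ →₀ ℕ} :
    m ∈ (p + q).support ↔ m ∈ p.support ∨ m ∈ q.support := by
  simp only [mem_support_iff, coeff_add]
  omega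

theorem mem_mul {p q : MvPolynomial ℕ ℕ} {a b : ℕ →₀ ℕ} (ha : a ∈ p.support)
    (hb : b ∈ q.support) : a + b ∈ (p * q).support := by
  classical
  rw [mem_support_iff] at *
  rw [coeff_mul]
  have := Finset.single_le_sum (f := fun x : (ℕ →₀ ℕ) × (ℕ →₀ ℕ) => coeff x.1 p * coeff x.2 q)
    (s := Finset.HasAntidiagonal.antidiagonal (a + b)) (fun _ _ => Nat.zero_le _) (a := (a, b)) (by simp)
  have h := Nat.mul_ne_zero ha hb
  simp only at this
  omega

theorem of_mul {p q : MvPolynomial ℕ ℕ} {m : ℕ →₀ ℕ} (h : m ∈ (p * q).support) :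
    ∃ a ∈ p.support, ∃ b ∈ q.support, a + b = m := by
  classical
  exact Finset.mem_add.1 (support_mul p q h)

noncomputable def D (p : MvPolynomial ℕ ℕ) : ℕ := sInf {e | ∀ m ∈ p.support, ∀ i, m i ≤ e}

theorem D_le {p : MvPolynomial ℕ ℕ} {e : ℕ} (h : ∀ m ∈ p.support, ∀ i, m i ≤ e) : D p ≤ e :=
  Nat.sInf_le h

theorem bound {d : ℕ} {p : MvPolynomial ℕ ℕ} (hp : p ∈ P d) : ∀ m ∈ p.support, ∀ i, m i ≤ d :=
  fun m hm i => degreeOf_le_iff.1 (hp.2.2 i) m hm

theorem le_D {d : ℕ} {p : MvPolynomial ℕ ℕ} (hp : p ∈ P d) : ∀ m ∈ p.support, ∀ i, m i ≤ D p :=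
  Nat.sInf_mem (s := {e | ∀ m ∈ p.support, ∀ i, m i ≤ e}) ⟨d, bound hp⟩

theorem D_pos {d : ℕ} {p : MvPolynomial ℕ ℕ} (hp : p ∈ P d) : 0 < D p := by
  obtain ⟨m, hm⟩ := support_nonempty.2 hp.1
  by_contra h
  have : m = 0 := by
    ext i
    have := le_D hp m hm i
    simp only [Finsupp.coe_zero, Pi.zero_apply]
    omega
  subst this
  exact mem_support_iff.1 hm hp.2.1

theorem top {d : ℕ} {p : MvPolynomial ℕ ℕ} (hp : p ∈ P d) : ∃ m ∈ p.support, ∃ i, m i = D p := by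
  by_contra h
  push Not at h
  have h1 := D_le (p := p) (e := D p - 1) fun m hm i => by
    have := le_D hp m hm i
    have := h m hm i
    omega
  have := D_pos hp
  omega

def Free (p : MvPolynomial ℕ ℕ) (i : ℕ) : Prop := ∀ m ∈ p.support, m i = 0

def Split (p : MvPolynomial ℕ ℕ) : Prop :=
  ∃ F G s t, p = F * G ∧ (∃ m ∈ p.support, m s = D p) ∧ (∃ m ∈ p.support, m t = D p) ∧
    Free F t ∧ Free G s

theorem key {x y F G : MvPolynomial ℕ ℕ} {s u : ℕ} (h : x + y = F * G)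
    (hs : ∃ m ∈ (x + y).support, 0 < m s) (hG : Free G s) (hy : Free y s) (hx : Free x u) :
    Free G u := by
  obtain ⟨m, hm, hms⟩ := hs
  rw [h] at hm
  obtain ⟨a, ha, b, hb, rfl⟩ := of_mul hm
  intro g hg
  have h1 := mem_mul ha hg
  rw [← h] at h1
  have h2 := hG b hb
  rcases mem_add.1 h1 with k | k
  · have := hx _ k
    simp only [Finsupp.coe_add, Pi.add_apply] at this
    omega
  · have := hy _ k
    simp only [Finsupp.coe_add, Pi.add_apply] at this hms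
    omega

theorem not_split {x y F G : MvPolynomial ℕ ℕ} {e s t : ℕ} (he : 0 < e) (h : x + y = F * G)
    (hxy : ∀ i, (∃ m ∈ x.support, m i = e) → Free y i)
    (hyx : ∀ i, (∃ m ∈ y.support, m i = e) → Free x i)
    (hy : ∃ m ∈ y.support, ∃ i, m i = e)
    (hs : ∃ m ∈ x.support, m s = e) (ht : ∃ m ∈ (x + y).support, m t = e)
    (hF : Free F t) (hG : Free G s) : False := by
  have free : ∀ u, Free F u → Free G u → Free (x + y) u := by
    intro u h1 h2 m hm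
    rw [h] at hm
    obtain ⟨a, ha, b, hb, rfl⟩ := of_mul hm
    simp [h1 a ha, h2 b hb]
  have hs' : ∃ m ∈ (x + y).support, 0 < m s := by
    obtain ⟨m, hm, e'⟩ := hs
    exact ⟨m, mem_add.2 (Or.inl hm), by omega⟩
  have G1 : ∀ u, Free x u → Free G u := fun u hu => key h hs' hG (hxy s hs) hu
  obtain ⟨m, hm, hmt⟩ := ht
  rcases mem_add.1 hm with k | k
  · obtain ⟨m', hm', u, hu⟩ := hy
    have hxu := hyx u ⟨m', hm', hu⟩
    have F1 : Free F u := key (h.trans (mul_comm _ _)) ⟨m, hm, by omega⟩ hF (hxy t ⟨m, k, hmt⟩) hxu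
    have := free u F1 (G1 u hxu) m' (mem_add.2 (Or.inr hm'))
    omega
  · have := free t hF (G1 t (hyx t ⟨m, k, hmt⟩)) m hm
    omega

theorem result : ∀ d : ℕ, ∃ (r : ℕ) (c : MvPolynomial ℕ ℕ → Fin r),
    ¬ ∃ x y, x ∈ P d ∧ y ∈ P d ∧ x + y ∈ P d ∧ x * y ∈ P d ∧
      c y = c x ∧ c (x + y) = c x ∧ c (x * y) = c x := by
  classical
  intro d
  refine ⟨2 * d + 2, fun p => ⟨2 * min (D p) d + if Split p then 1 else 0, by
    split_ifs <;> omega⟩, ?_⟩
  rintro ⟨x, y, hx, hy, hs, hm, c1, c2, c3⟩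
  simp only [Fin.mk.injEq] at c1 c2 c3
  have b1 := D_le (bound hx)
  have b2 := D_le (bound hy)
  have b3 := D_le (bound hs)
  have b4 := D_le (bound hm)
  have e1 : D y = D x := by split_ifs at c1 <;> omega
  have e2 : D (x + y) = D x := by split_ifs at c2 <;> omega
  have e3 : D (x * y) = D x := by split_ifs at c3 <;> omega
  have hxy : ∀ i, (∃ m ∈ x.support, m i = D x) → Free y i := by
    rintro i ⟨m, h1, h2⟩ b hb
    have := le_D hm _ (mem_mul h1 hb) i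
    simp only [Finsupp.coe_add, Pi.add_apply] at this
    omega
  have hyx : ∀ i, (∃ m ∈ y.support, m i = D x) → Free x i := by
    rintro i ⟨m, h1, h2⟩ b hb
    have := le_D hm _ (mem_mul hb h1) i
    simp only [Finsupp.coe_add, Pi.add_apply] at this
    omega
  obtain ⟨mx, hmx, s, hs'⟩ := top hx
  obtain ⟨my, hmy, t, ht'⟩ := top hy
  rw [e1] at ht'
  have sp : Split (x * y) := by
    refine ⟨x, y, s, t, rfl, ⟨mx + my, mem_mul hmx hmy, ?_⟩, ⟨mx + my, mem_mul hmx hmy, ?_⟩,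
      hyx t ⟨my, hmy, ht'⟩, hxy s ⟨mx, hmx, hs'⟩⟩
    · simp [e3, hs', hxy s ⟨mx, hmx, hs'⟩ my hmy]
    · simp [e3, ht', hyx t ⟨my, hmy, ht'⟩ mx hmx]
  have nsp : ¬ Split (x + y) := by
    rintro ⟨F, G, a, b, h, ⟨m, h1, h2⟩, hb, hF, hG⟩
    rw [e2] at h2 hb
    rcases mem_add.1 h1 with k | k
    · exact not_split (D_pos hx) h hxy hyx ⟨my, hmy, t, ht'⟩ ⟨m, k, h2⟩ hb hF hG
    · rw [add_comm] at h hb
      exact not_split (D_pos hx) h hyx hxy ⟨mx, hmx, s, hs'⟩ ⟨m, k, h2⟩ hb hF hG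
  rw [if_pos sp] at c3
  rw [if_neg nsp] at c2
  omega

end Pool.Agent.Results.MP_5a868e_co.NotRegular
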